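import Pool.Agent.J6H31.AW.Game

/-!
# Exponential concentration for games with short conversations

The rows `σ x` are independent; every input `x` has a game whose conversations touch few positions.
For a random set `S` of rows, most of the best conversations touch no other row of `S`. If the rows
outside of `S` are fixed, then the correctness of the inputs in `S` is bounded by independent events
of probability hardly more than one half.
-/

set_option autoImplicit false
set_option linter.unusedSectionVars false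

namespace Pool.Agent.J6H31.AX

open Finset H568R2 Pool.Agent.H676 Pool.Agent.H620R2.Gauge Pool.Agent.H591R3.PHG
open Pool.Agent.J6H31.AV Pool.Agent.J6H31.AW

/-! ### Expectations -/

section ex
variable {I J A B : Type} [Fintype I] [DecidableEq I] [Fintype J] [DecidableEq J] [Fintype A]
  [Fintype B]

/-- Jensen's inequality -/
theorem exp_Ex {w : A → ℝ} (hw0 : ∀ a, 0 ≤ w a) (hw : ∑ a, w a = 1) (F : (I → A) → ℝ) :
    Real.exp (Ex w F) ≤ Ex w (fun c => Real.exp (F c)) := by
  set m := Ex w F with hm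
  have h1 : ∀ c, Real.exp m * F c + Real.exp m * (1 - m) ≤ Real.exp (F c) := by
    intro c
    have h2 := Real.add_one_le_exp (F c - m)
    have h3 : Real.exp (F c) = Real.exp m * Real.exp (F c - m) := by
      rw [← Real.exp_add]
      congr 1
      ring
    rw [h3]
    have := mul_le_mul_of_nonneg_left h2 (Real.exp_pos m).le
    linarith
  have h4 := Ex_mono (w := w) hw0 h1
  rw [Ex_add, Ex_smul, Ex_const hw, ← hm] at h4
  linarith

theorem Ex_comm (w : A → ℝ) (u : B → ℝ) (G : (I → A) → (J → B) → ℝ) :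
    Ex w (fun σ => Ex u (fun c => G σ c)) = Ex u (fun c => Ex w (fun σ => G σ c)) := by
  unfold Ex
  simp only [Finset.mul_sum]
  rw [Finset.sum_comm]
  refine Finset.sum_congr rfl fun c _ => Finset.sum_congr rfl fun σ _ => ?_
  ring

end ex

section rows

variable {X : Type} [Fintype X] [DecidableEq X] {K : ℕ}

/-- the rows in `S` are replaced by zero rows -/
def out (S : Finset X) (σ : X → Fin K → Bool) : X → Fin K → Bool :=
  fun y => if y ∈ S then zrow K else σ y

theorem out_update {S : Finset X} {x : X} (hx : x ∈ S) (σ : X → Fin K → Bool)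
    (a : Fin K → Bool) : out S (Function.update σ x a) = out S σ := by
  funext y
  unfold out
  split_ifs with hy
  · rfl
  · have : y ≠ x := fun h => hy (h ▸ hx)
    rw [Function.update_of_ne this]

/-- **Products over independent rows.** -/
theorem prodE {w : (Fin K → Bool) → ℝ} (hw0 : ∀ a, 0 ≤ w a) (hw : ∑ a, w a = 1) (S : Finset X)
    (φ : X → (X → Fin K → Bool) → (Fin K → Bool) → ℝ) (hφ : ∀ x τ a, 0 ≤ φ x τ a) {B : ℝ}
    (hB : 0 ≤ B) (h : ∀ x τ, ∑ a, w a * φ x τ a ≤ B) : ∀ T ⊆ S,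
    Ex w (fun σ => ∏ x ∈ T, φ x (out S σ) (σ x)) ≤ B ^ T.card := by
  intro T
  induction T using Finset.induction_on with
  | empty =>
    intro _
    simp only [Finset.prod_empty, Finset.card_empty, pow_zero]
    rw [Ex_const hw]
  | insert x T hx ih =>
    intro hT
    have hxS : x ∈ S := hT (Finset.mem_insert_self _ _)
    have hTS : T ⊆ S := fun y hy => hT (Finset.mem_insert_of_mem hy)
    have h1 := ih hTS
    rw [Ex_resample hw _ x]
    have h2 : ∀ σ : X → Fin K → Bool, ∑ a, w a * ∏ y ∈ insert x T,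
        φ y (out S (Function.update σ x a)) (Function.update σ x a y) ≤
        B * ∏ y ∈ T, φ y (out S σ) (σ y) := by
      intro σ
      have h3 : ∀ a, w a * ∏ y ∈ insert x T,
          φ y (out S (Function.update σ x a)) (Function.update σ x a y) =
          (w a * φ x (out S σ) a) * ∏ y ∈ T, φ y (out S σ) (σ y) := by
        intro a
        rw [Finset.prod_insert hx, out_update hxS, Function.update_self, mul_assoc]
        congr 2
        refine Finset.prod_congr rfl fun y hy => ?_
        have : y ≠ x := fun h => hx (h ▸ hy)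
        rw [Function.update_of_ne this]
      rw [Finset.sum_congr rfl fun a _ => h3 a, ← Finset.sum_mul]
      exact mul_le_mul_of_nonneg_right (h x _) (Finset.prod_nonneg fun y _ => hφ _ _ _)
    refine (Ex_mono hw0 h2).trans ?_
    rw [Ex_smul, Finset.card_insert_of_notMem hx, pow_succ, mul_comm (B ^ T.card)]
    exact mul_le_mul_of_nonneg_left h1 hB

variable {PP Ω : Type} [Fintype Ω] [Nonempty PP] [Nonempty Ω]
variable (acc : X → (X → Fin K → Bool) → PP → Ω → Prop)
  (tch : X → (X → Fin K → Bool) → PP → Ω → Finset (X × Fin K))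

/-- no other row of `S` is touched -/
def avoid (S : Finset X) (x : X) (T : Finset (X × Fin K)) : Prop := ∀ g ∈ T, g.1 ∈ S → g.1 = x

/-- a prover is good without the other rows of `S` -/
def UU (x : X) (S : Finset X) (τ : X → Fin K → Bool) : Prop :=
  ∃ P, Fintype.card Ω < 2 * cnt (fun r => acc x τ P r ∧ avoid S x (tch x τ P r))

/-- a prover is rather good without the other rows of `S` and without the ones of `a` -/
def VV (x : X) (S : Finset X) (τ : X → Fin K → Bool) (a : Fin K → Bool) : Prop :=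
  ∃ P, Fintype.card Ω < 3 * cnt (fun r => acc x τ P r ∧ avoid S x (tch x τ P r) ∧
    ∀ g ∈ tch x τ P r, g.1 = x → a g.2 = false)

/-- the event for the row `a` of `x`, given the rows outside of `S` -/
def EE (x : X) (S : Finset X) (τ : X → Fin K → Bool) (a : Fin K → Bool) : Prop :=
  (a = zrow K ∧ UU acc tch x S τ) ∨ (a ≠ zrow K ∧ ¬ VV acc tch x S τ a)

/-- the game is correct for the negated bit of `x` -/
def Cr (x : X) (σ : X → Fin K → Bool) : Prop :=
  (σ x = zrow K → ∃ P, 2 * Fintype.card Ω ≤ 3 * cnt (acc x σ P)) ∧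
  (σ x ≠ zrow K → ∀ P, 3 * cnt (acc x σ P) ≤ Fintype.card Ω)

/-- the best prover touches other rows of `S` -/
def NG (x : X) (S : Finset X) (σ : X → Fin K → Bool) : Prop :=
  Fintype.card Ω ≤ 6 * cnt (fun r => ∃ g ∈ tch x σ (best (acc x σ)) r, g.1 ∈ S ∧ g.1 ≠ x)

variable {acc tch}

theorem cor_EE (hst : ∀ x σ σ' P r, (∀ g ∈ tch x σ P r, σ' g.1 g.2 = σ g.1 g.2) →
      (tch x σ' P r = tch x σ P r ∧ (acc x σ' P r ↔ acc x σ P r)))
    {x : X} {S : Finset X} {σ : X → Fin K → Bool} (hc : Cr acc x σ)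
    (hg : ¬ NG acc tch x S σ) : EE acc tch x S (out S σ) (σ x) := by
  by_cases h0 : σ x = zrow K
  · refine Or.inl ⟨h0, best (acc x σ), ?_⟩
    obtain ⟨P, hP⟩ := hc.1 h0
    have h1 := best_spec (acc x σ) P
    have h2 : cnt (acc x σ (best (acc x σ))) ≤
        cnt (fun r => acc x (out S σ) (best (acc x σ)) r ∧
          avoid S x (tch x (out S σ) (best (acc x σ)) r)) +
        cnt (fun r => ∃ g ∈ tch x σ (best (acc x σ)) r, g.1 ∈ S ∧ g.1 ≠ x) := by
      refine cnt_le_add fun r hr => ?_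
      by_cases ht : ∃ g ∈ tch x σ (best (acc x σ)) r, g.1 ∈ S ∧ g.1 ≠ x
      · exact Or.inr ht
      · left
        have hav : avoid S x (tch x σ (best (acc x σ)) r) := by
          intro g hg1 hg2
          by_contra hne
          exact ht ⟨g, hg1, hg2, hne⟩
        have h3 := hst x σ (out S σ) (best (acc x σ)) r fun g hg1 => by
          unfold out
          split_ifs with hgS
          · rw [hav g hg1 hgS, h0]
          · rfl
        rw [h3.1]
        exact ⟨h3.2.2 hr, hav⟩
    unfold NG at hg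
    push Not at hg
    omega
  · refine Or.inr ⟨h0, ?_⟩
    rintro ⟨P, hP⟩
    have h1 := hc.2 h0 P
    have h2 : cnt (fun r => acc x (out S σ) P r ∧ avoid S x (tch x (out S σ) P r) ∧
        ∀ g ∈ tch x (out S σ) P r, g.1 = x → σ x g.2 = false) ≤
        cnt (acc x σ P) + cnt (fun _ : Ω => False) := by
      refine cnt_le_add fun r hr => Or.inl ?_
      obtain ⟨hr1, hr2, hr3⟩ := hr
      refine (hst x (out S σ) σ P r fun g hg1 => ?_).2.2 hr1
      unfold out
      split_ifs with hgS
      · have h3 := hr2 g hg1 hgS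
        rw [h3, hr3 g hg1 h3]
        rfl
      · rfl
    have h3 : cnt (fun _ : Ω => False) = 0 := by
      rw [cnt_eq]
      simp
    omega

theorem cnt_le_sum {T : Ω → Finset (X × Fin K)} (f : X × Fin K → Prop) [DecidablePred f] :
    (cnt (fun r => ∃ g ∈ T r, f g) : ℝ) ≤ ∑ r, ∑ g ∈ T r, (if f g then (1 : ℝ) else 0) := by
  classical
  rw [cnt_eq]
  have h3 : ((univ.filter fun r => ∃ g ∈ T r, f g).card : ℝ) =
      ∑ r : Ω, if ∃ g ∈ T r, f g then (1 : ℝ) else 0 := by
    rw [Finset.sum_ite, Finset.sum_const_zero, add_zero, Finset.sum_const, nsmul_eq_mul, mul_one]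
  rw [h3]
  refine Finset.sum_le_sum fun r _ => ?_
  split_ifs with h
  · obtain ⟨g, hg, hg2⟩ := h
    have h4 := Finset.single_le_sum (f := fun g : X × Fin K =>
      (if f g then (1 : ℝ) else 0)) (fun g _ => by split_ifs <;> norm_num) hg
    simp only [hg2, if_true] at h4
    exact h4
  · exact Finset.sum_nonneg fun g _ => by split_ifs <;> norm_num

open Classical in
/-- the event has probability hardly more than one half -/
theorem EE_prob {p : ℝ} (hp0 : 0 ≤ p) (hp1 : p ≤ 1) {s : ℕ}
    (hs : ∀ x σ P r, (tch x σ P r).card ≤ s) (hq : |(1 - p) ^ K - 1 / 2| ≤ p)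
    (x : X) (S : Finset X) (τ : X → Fin K → Bool) :
    ∑ a, rowW p K a * (if EE acc tch x S τ a then (1 : ℝ) else 0) ≤ 1 / 2 + (p + 6 * (s * p)) := by
  have hw0 : ∀ a, 0 ≤ rowW p K a := rowW_nonneg hp0 hp1
  have hc : (0 : ℝ) < Fintype.card Ω := by exact_mod_cast Fintype.card_pos
  have hz : ∑ a, rowW p K a * (if a = zrow K then (1 : ℝ) else 0) = (1 - p) ^ K := by
    rw [← rowW_zrow]
    simp
  have hqq := abs_le.1 hq
  by_cases hU : UU acc tch x S τ
  · obtain ⟨P, hP⟩ := hU
    have h1 : ∀ a, (if EE acc tch x S τ a then (1 : ℝ) else 0) ≤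
        (if a = zrow K then (1 : ℝ) else 0) + 6 / Fintype.card Ω *
          ∑ r, ∑ g ∈ tch x τ P r, (if a g.2 = true then (1 : ℝ) else 0) := by
      intro a
      have h0 : 0 ≤ 6 / (Fintype.card Ω : ℝ) *
          ∑ r, ∑ g ∈ tch x τ P r, (if a g.2 = true then (1 : ℝ) else 0) := by
        refine mul_nonneg (by positivity) (Finset.sum_nonneg fun r _ =>
          Finset.sum_nonneg fun g _ => ?_)
        split_ifs <;> norm_num
      by_cases hE : EE acc tch x S τ a
      · rw [if_pos hE]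
        rcases hE with ⟨ha, -⟩ | ⟨ha, hV⟩
        · rw [if_pos ha]
          linarith
        · rw [if_neg ha, zero_add]
          have h2 : 3 * cnt (fun r => acc x τ P r ∧ avoid S x (tch x τ P r) ∧
              ∀ g ∈ tch x τ P r, g.1 = x → a g.2 = false) ≤ Fintype.card Ω := by
            by_contra hcon
            push Not at hcon
            exact hV ⟨P, hcon⟩
          have h3 : cnt (fun r => acc x τ P r ∧ avoid S x (tch x τ P r)) ≤
              cnt (fun r => acc x τ P r ∧ avoid S x (tch x τ P r) ∧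
                ∀ g ∈ tch x τ P r, g.1 = x → a g.2 = false) +
              cnt (fun r => ∃ g ∈ tch x τ P r, a g.2 = true) := by
            refine cnt_le_add fun r hr => ?_
            by_cases ht : ∃ g ∈ tch x τ P r, a g.2 = true
            · exact Or.inr ht
            · left
              refine ⟨hr.1, hr.2, fun g hg _ => ?_⟩
              cases h4 : a g.2
              · rfl
              · exact absurd ⟨g, hg, h4⟩ ht
          have h4 : Fintype.card Ω ≤ 6 * cnt (fun r => ∃ g ∈ tch x τ P r, a g.2 = true) := by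
            omega
          have h5 : (Fintype.card Ω : ℝ) ≤
              6 * cnt (fun r => ∃ g ∈ tch x τ P r, a g.2 = true) := by exact_mod_cast h4
          have h6 := cnt_le_sum (T := fun r => tch x τ P r) (fun g : X × Fin K => a g.2 = true)
          calc (1 : ℝ) = 1 / Fintype.card Ω * Fintype.card Ω := by field_simp
            _ ≤ 1 / Fintype.card Ω * (6 * ∑ r, ∑ g ∈ tch x τ P r,
                (if a g.2 = true then (1 : ℝ) else 0)) :=
              mul_le_mul_of_nonneg_left (by linarith) (by positivity)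
            _ = _ := by ring
      · rw [if_neg hE]
        have : (0 : ℝ) ≤ if a = zrow K then (1 : ℝ) else 0 := by split_ifs <;> norm_num
        linarith
    have h2 : ∑ a, rowW p K a * (if EE acc tch x S τ a then (1 : ℝ) else 0) ≤
        ∑ a, (rowW p K a * (if a = zrow K then (1 : ℝ) else 0) + 6 / Fintype.card Ω *
          ∑ r, ∑ g ∈ tch x τ P r, rowW p K a * (if a g.2 = true then (1 : ℝ) else 0)) := by
      refine Finset.sum_le_sum fun a _ => ?_
      refine (mul_le_mul_of_nonneg_left (h1 a) (hw0 a)).trans (le_of_eq ?_)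
      rw [mul_add, mul_left_comm]
      simp only [Finset.mul_sum]
    refine h2.trans ?_
    rw [Finset.sum_add_distrib, hz, ← Finset.mul_sum, Finset.sum_comm]
    have h3 : ∑ r, ∑ a, ∑ g ∈ tch x τ P r, rowW p K a * (if a g.2 = true then (1 : ℝ) else 0) ≤
        ∑ _r : Ω, (s : ℝ) * p := by
      refine Finset.sum_le_sum fun r _ => ?_
      rw [Finset.sum_comm]
      simp only [rowW_true, Finset.sum_const, nsmul_eq_mul]
      exact mul_le_mul_of_nonneg_right (by exact_mod_cast hs _ _ _ _) hp0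
    rw [Finset.sum_const, nsmul_eq_mul, Finset.card_univ] at h3
    have h4 : 6 / (Fintype.card Ω : ℝ) * ∑ r, ∑ a, ∑ g ∈ tch x τ P r,
        rowW p K a * (if a g.2 = true then (1 : ℝ) else 0) ≤ 6 * (s * p) := by
      calc 6 / (Fintype.card Ω : ℝ) * ∑ r, ∑ a, ∑ g ∈ tch x τ P r,
            rowW p K a * (if a g.2 = true then (1 : ℝ) else 0)
          ≤ 6 / Fintype.card Ω * (Fintype.card Ω * (s * p)) :=
            mul_le_mul_of_nonneg_left h3 (by positivity)
        _ = 6 * (s * p) := by field_simp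
    linarith
  · have h1 : ∀ a, rowW p K a * (if EE acc tch x S τ a then (1 : ℝ) else 0) ≤
        rowW p K a - rowW p K a * (if a = zrow K then (1 : ℝ) else 0) := by
      intro a
      by_cases ha : a = zrow K
      · have hE : ¬ EE acc tch x S τ a := by
          rintro (⟨-, h⟩ | ⟨h, -⟩)
          · exact hU h
          · exact h ha
        rw [if_neg hE, if_pos ha]
        linarith
      · rw [if_neg ha]
        have := hw0 a
        split_ifs <;> linarith
    refine (Finset.sum_le_sum fun a _ => h1 a).trans ?_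
    rw [Finset.sum_sub_distrib, hz, rowW_sum]
    have : 0 ≤ 6 * ((s : ℝ) * p) := by positivity
    linarith

/-! ### The random set of rows -/

/-- the uniform law on the colours -/
noncomputable def ul (ρ : ℕ) : Fin (ρ + 1) → ℝ := fun _ => 1 / ((ρ : ℝ) + 1)

theorem ul_sum (ρ : ℕ) : ∑ a, ul ρ a = 1 := by
  unfold ul
  rw [Finset.sum_const, Finset.card_univ, Fintype.card_fin, nsmul_eq_mul]
  push_cast
  field_simp

theorem ul_nonneg (ρ : ℕ) (a : Fin (ρ + 1)) : 0 ≤ ul ρ a := by
  unfold ul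
  positivity

theorem ul_zero (ρ : ℕ) : ∑ a, ul ρ a * (if a = 0 then (1 : ℝ) else 0) = 1 / ((ρ : ℝ) + 1) := by
  rw [Finset.sum_eq_single 0]
  · simp [ul]
  · intro b _ hb
    rw [if_neg hb, mul_zero]
  · intro h
    exact absurd (Finset.mem_univ _) h

theorem col1 (ρ : ℕ) (x : X) : Ex (ul ρ) (fun c : X → Fin (ρ + 1) =>
    if c x = 0 then (1 : ℝ) else 0) = 1 / ((ρ : ℝ) + 1) := by
  have h := Ex_fac (ul_sum ρ) x (fun b => if b = 0 then (1 : ℝ) else 0)
    (fun _ : X → Fin (ρ + 1) => 1) (fun _ _ => rfl)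
  rw [Ex_const (ul_sum ρ), mul_one, ul_zero] at h
  simp only [mul_one] at h
  exact h

theorem col2 (ρ : ℕ) {x y : X} (h : y ≠ x) : Ex (ul ρ) (fun c : X → Fin (ρ + 1) =>
    (if c x = 0 then (1 : ℝ) else 0) * (if c y = 0 then (1 : ℝ) else 0)) =
      1 / ((ρ : ℝ) + 1) ^ 2 := by
  have h1 := Ex_fac (ul_sum ρ) x (fun b => if b = 0 then (1 : ℝ) else 0)
    (fun c : X → Fin (ρ + 1) => if c y = 0 then (1 : ℝ) else 0) (fun c a => by
      rw [Function.update_of_ne h])
  rw [h1, col1, ul_zero]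
  field_simp

/-- the set of the rows with colour zero -/
def Sc {ρ : ℕ} (c : X → Fin (ρ + 1)) : Finset X := univ.filter fun x => c x = 0

theorem mem_Sc {ρ : ℕ} (c : X → Fin (ρ + 1)) (x : X) : x ∈ Sc c ↔ c x = 0 := by
  simp [Sc]

open Classical in
/-- rarely the best prover touches other rows of the random set -/
theorem NG_prob {s : ℕ} (hs : ∀ x σ P r, (tch x σ P r).card ≤ s) (ρ : ℕ)
    (x : X) (σ : X → Fin K → Bool) :
    Ex (ul ρ) (fun c : X → Fin (ρ + 1) => if c x = 0 then
      (if NG acc tch x (Sc c) σ then (1 : ℝ) else 0) else 0) ≤ 6 * s / ((ρ : ℝ) + 1) ^ 2 := by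
  have hc : (0 : ℝ) < Fintype.card Ω := by exact_mod_cast Fintype.card_pos
  set T : Ω → Finset (X × Fin K) := fun r => tch x σ (best (acc x σ)) r with hT
  have h1 : ∀ c : X → Fin (ρ + 1), (if c x = 0 then
      (if NG acc tch x (Sc c) σ then (1 : ℝ) else 0) else 0) ≤
      6 / Fintype.card Ω * ∑ r, ∑ g ∈ T r, (if g.1 ≠ x then
        (if c x = 0 then (1 : ℝ) else 0) * (if c g.1 = 0 then (1 : ℝ) else 0) else 0) := by
    intro c
    have h0 : 0 ≤ 6 / (Fintype.card Ω : ℝ) * ∑ r, ∑ g ∈ T r, (if g.1 ≠ x then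
        (if c x = 0 then (1 : ℝ) else 0) * (if c g.1 = 0 then (1 : ℝ) else 0) else 0) := by
      refine mul_nonneg (by positivity) (Finset.sum_nonneg fun r _ =>
        Finset.sum_nonneg fun g _ => ?_)
      split_ifs <;> norm_num
    by_cases hx : c x = 0
    · rw [if_pos hx]
      by_cases hN : NG acc tch x (Sc c) σ
      · rw [if_pos hN]
        unfold NG at hN
        have h5 : (Fintype.card Ω : ℝ) ≤ 6 * cnt (fun r => ∃ g ∈ T r, g.1 ∈ Sc c ∧ g.1 ≠ x) := by
          exact_mod_cast hN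
        have h6 := cnt_le_sum (T := T) (fun g : X × Fin K => g.1 ∈ Sc c ∧ g.1 ≠ x)
        have h7 : ∑ r, ∑ g ∈ T r, (if g.1 ∈ Sc c ∧ g.1 ≠ x then (1 : ℝ) else 0) =
            ∑ r, ∑ g ∈ T r, (if g.1 ≠ x then (if c x = 0 then (1 : ℝ) else 0) *
              (if c g.1 = 0 then (1 : ℝ) else 0) else 0) := by
          refine Finset.sum_congr rfl fun r _ => Finset.sum_congr rfl fun g _ => ?_
          by_cases h8 : g.1 = x
          · have h9 : ¬ (g.1 ∈ Sc c ∧ g.1 ≠ x) := fun h => h.2 h8
            have h10 : ¬ (g.1 ≠ x) := fun h => h h8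
            rw [if_neg h9, if_neg h10]
          · by_cases h9 : c g.1 = 0
            · have h10 : g.1 ∈ Sc c ∧ g.1 ≠ x := ⟨(mem_Sc c _).2 h9, h8⟩
              rw [if_pos h10, if_pos h10.2, if_pos hx, if_pos h9, mul_one]
            · have h10 : ¬ (g.1 ∈ Sc c ∧ g.1 ≠ x) := fun h => h9 ((mem_Sc c _).1 h.1)
              rw [if_neg h10, if_pos h8, if_neg h9, mul_zero]
        rw [h7] at h6
        calc (1 : ℝ) = 1 / Fintype.card Ω * Fintype.card Ω := by field_simp
          _ ≤ 1 / Fintype.card Ω * (6 * ∑ r, ∑ g ∈ T r, (if g.1 ≠ x then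
              (if c x = 0 then (1 : ℝ) else 0) * (if c g.1 = 0 then (1 : ℝ) else 0) else 0)) :=
            mul_le_mul_of_nonneg_left (by linarith) (by positivity)
          _ = _ := by ring
      · rw [if_neg hN]
        exact h0
    · rw [if_neg hx]
      exact h0
  refine (Ex_mono (ul_nonneg ρ) h1).trans ?_
  rw [Ex_smul, Ex_sum]
  have h2 : ∀ r, Ex (ul ρ) (fun c : X → Fin (ρ + 1) => ∑ g ∈ T r, (if g.1 ≠ x then
      (if c x = 0 then (1 : ℝ) else 0) * (if c g.1 = 0 then (1 : ℝ) else 0) else 0)) ≤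
      s * (1 / ((ρ : ℝ) + 1) ^ 2) := by
    intro r
    rw [Ex_sum]
    have h3 : ∀ g ∈ T r, Ex (ul ρ) (fun c : X → Fin (ρ + 1) => (if g.1 ≠ x then
        (if c x = 0 then (1 : ℝ) else 0) * (if c g.1 = 0 then (1 : ℝ) else 0) else 0)) ≤
        1 / ((ρ : ℝ) + 1) ^ 2 := by
      intro g _
      by_cases hg : g.1 = x
      · simp only [hg, ne_eq, not_true, if_false]
        rw [Ex_const (ul_sum ρ)]
        positivity
      · simp only [ne_eq, hg, not_false_iff, if_true]
        rw [col2 ρ hg]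
    refine (Finset.sum_le_sum h3).trans ?_
    rw [Finset.sum_const, nsmul_eq_mul]
    refine mul_le_mul_of_nonneg_right ?_ (by positivity)
    exact_mod_cast hs _ _ _ _
  have h4 : ∑ r, Ex (ul ρ) (fun c : X → Fin (ρ + 1) => ∑ g ∈ T r, (if g.1 ≠ x then
      (if c x = 0 then (1 : ℝ) else 0) * (if c g.1 = 0 then (1 : ℝ) else 0) else 0)) ≤
      Fintype.card Ω * (s * (1 / ((ρ : ℝ) + 1) ^ 2)) := by
    refine (Finset.sum_le_sum fun r _ => h2 r).trans (le_of_eq ?_)
    rw [Finset.sum_const, nsmul_eq_mul, Finset.card_univ]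
  calc 6 / (Fintype.card Ω : ℝ) * ∑ r, Ex (ul ρ) (fun c : X → Fin (ρ + 1) => ∑ g ∈ T r,
        (if g.1 ≠ x then (if c x = 0 then (1 : ℝ) else 0) * (if c g.1 = 0 then (1 : ℝ) else 0)
          else 0))
      ≤ 6 / Fintype.card Ω * (Fintype.card Ω * (s * (1 / ((ρ : ℝ) + 1) ^ 2))) :=
        mul_le_mul_of_nonneg_left h4 (by positivity)
    _ = 6 * s / ((ρ : ℝ) + 1) ^ 2 := by field_simp

/-! ### The main inequality -/

theorem B_le {t η : ℝ} (ht0 : 0 ≤ t) (ht1 : t ≤ 1) (hη : 0 ≤ η) :
    Real.exp (-t) + (Real.exp t - Real.exp (-t)) * (1 / 2 + η) ≤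
      Real.exp (t ^ 2 / 2 + 3 * η * t) := by
  have h1 : Real.exp (-t) + (Real.exp t - Real.exp (-t)) * (1 / 2 + η) =
      Real.cosh t + 2 * η * Real.sinh t := by
    rw [Real.cosh_eq, Real.sinh_eq]
    ring
  have h2 : Real.cosh t ≤ Real.exp (t ^ 2 / 2) := Real.cosh_le_exp_half_sq t
  have h3 : Real.sinh t ≤ 3 / 2 * t := by
    have h4 := (abs_le.1 (Real.abs_exp_sub_one_sub_id_le (x := t)
      (by rw [abs_of_nonneg ht0]; exact ht1))).2
    have h5 := Real.add_one_le_exp (-t)
    rw [Real.sinh_eq]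
    nlinarith
  have h4 : (1 : ℝ) ≤ Real.exp (t ^ 2 / 2) := Real.one_le_exp (by positivity)
  have h5 : 0 ≤ 3 * η * t := by positivity
  have h6 := Real.add_one_le_exp (3 * η * t)
  rw [h1, Real.exp_add]
  have h7 : 2 * η * Real.sinh t ≤ 3 * η * t := by
    have := mul_le_mul_of_nonneg_left h3 (show 0 ≤ 2 * η by positivity)
    linarith
  calc Real.cosh t + 2 * η * Real.sinh t ≤ Real.exp (t ^ 2 / 2) + 3 * η * t := by linarith
    _ ≤ Real.exp (t ^ 2 / 2) * (3 * η * t + 1) := by nlinarith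
    _ ≤ Real.exp (t ^ 2 / 2) * Real.exp (3 * η * t) :=
      mul_le_mul_of_nonneg_left h6 (by positivity)

open Classical in
/-- the sum over the random set -/
noncomputable def TT (acc : X → (X → Fin K → Bool) → PP → Ω → Prop)
    (tch : X → (X → Fin K → Bool) → PP → Ω → Finset (X × Fin K)) {ρ : ℕ}
    (σ : X → Fin K → Bool) (c : X → Fin (ρ + 1)) : ℝ :=
  ∑ x, if c x = 0 then (if EE acc tch x (Sc c) (out (Sc c) σ) (σ x) then (1 : ℝ) else -1) else 0

open Classical in
/-- if many inputs are correct, then the mean of the sum over the random set is large -/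
theorem mean_ge {s : ℕ} (hs : ∀ x σ P r, (tch x σ P r).card ≤ s)
    (hst : ∀ x σ σ' P r, (∀ g ∈ tch x σ P r, σ' g.1 g.2 = σ g.1 g.2) →
      (tch x σ' P r = tch x σ P r ∧ (acc x σ' P r ↔ acc x σ P r))) (ρ : ℕ) {D : ℝ}
    (hD : 12 * (Fintype.card X * s) ≤ ((ρ : ℝ) + 1) * D) (σ : X → Fin K → Bool)
    (h : (Fintype.card X : ℝ) / 2 + D < (univ.filter fun x => Cr acc x σ).card) :
    D / ((ρ : ℝ) + 1) ≤ Ex (ul ρ) (TT (ρ := ρ) acc tch σ) := by
  have hρ : (0 : ℝ) < (ρ : ℝ) + 1 := by positivity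
  unfold TT
  rw [Ex_sum]
  have h1 : ∀ x, (if Cr acc x σ then (1 : ℝ) else -1) * (1 / ((ρ : ℝ) + 1)) -
      2 * (6 * s / ((ρ : ℝ) + 1) ^ 2) ≤ Ex (ul ρ) (fun c : X → Fin (ρ + 1) => if c x = 0 then
        (if EE acc tch x (Sc c) (out (Sc c) σ) (σ x) then (1 : ℝ) else -1) else 0) := by
    intro x
    have h2 : ∀ c : X → Fin (ρ + 1), (if Cr acc x σ then (1 : ℝ) else -1) *
        (if c x = 0 then (1 : ℝ) else 0) + (-2) * (if c x = 0 then
          (if NG acc tch x (Sc c) σ then (1 : ℝ) else 0) else 0) ≤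
        (if c x = 0 then
          (if EE acc tch x (Sc c) (out (Sc c) σ) (σ x) then (1 : ℝ) else -1) else 0) := by
      intro c
      by_cases hx : c x = 0
      · simp only [if_pos hx, mul_one]
        by_cases hC : Cr acc x σ
        · by_cases hN : NG acc tch x (Sc c) σ
          · rw [if_pos hC, if_pos hN]
            split_ifs <;> norm_num
          · rw [if_pos hC, if_neg hN, if_pos (cor_EE hst hC hN)]
            norm_num
        · rw [if_neg hC]
          split_ifs <;> norm_num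
      · simp only [if_neg hx, mul_zero, add_zero, le_refl]
    have h3 := Ex_mono (w := ul ρ) (ul_nonneg ρ) h2
    rw [Ex_add, Ex_smul, Ex_smul, col1] at h3
    have h4 := NG_prob (acc := acc) hs ρ x σ
    linarith
  refine le_trans ?_ (Finset.sum_le_sum fun x _ => h1 x)
  rw [Finset.sum_sub_distrib, ← Finset.sum_mul, Finset.sum_const, nsmul_eq_mul, Finset.card_univ,
    Finset.sum_ite, Finset.sum_const, Finset.sum_const, nsmul_eq_mul, nsmul_eq_mul]
  have h5 := Finset.card_filter_add_card_filter_not (s := (univ : Finset X))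
    (fun x => Cr acc x σ)
  rw [Finset.card_univ] at h5
  have h6 : ((univ.filter fun x => ¬ Cr acc x σ).card : ℝ) =
      Fintype.card X - (univ.filter fun x => Cr acc x σ).card := by
    rw [← h5]
    push_cast
    ring
  rw [h6]
  set θ : ℝ := ((univ.filter fun x => Cr acc x σ).card : ℝ) with hθ
  have h7 : 12 * ((Fintype.card X : ℝ) * s) / ((ρ : ℝ) + 1) ^ 2 ≤ D / ((ρ : ℝ) + 1) := by
    rw [div_le_div_iff₀ (by positivity) hρ]
    calc 12 * ((Fintype.card X : ℝ) * s) * ((ρ : ℝ) + 1) ≤ ((ρ : ℝ) + 1) * D * ((ρ : ℝ) + 1) :=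
          mul_le_mul_of_nonneg_right hD hρ.le
      _ = D * ((ρ : ℝ) + 1) ^ 2 := by ring
  have h8 : 2 * D / ((ρ : ℝ) + 1) ≤ (2 * θ - Fintype.card X) / ((ρ : ℝ) + 1) := by
    apply div_le_div_of_nonneg_right _ hρ.le
    linarith
  have h9 : (θ * 1 + ((Fintype.card X : ℝ) - θ) * -1) * (1 / ((ρ : ℝ) + 1)) -
      (Fintype.card X : ℝ) * (2 * (6 * s / ((ρ : ℝ) + 1) ^ 2)) =
      (2 * θ - Fintype.card X) / ((ρ : ℝ) + 1) -
        12 * ((Fintype.card X : ℝ) * s) / ((ρ : ℝ) + 1) ^ 2 := by
    ring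
  rw [h9]
  have h10 : 2 * D / ((ρ : ℝ) + 1) = D / ((ρ : ℝ) + 1) + D / ((ρ : ℝ) + 1) := by ring
  linarith

open Classical in
/-- **Few inputs are correct, with high probability.** -/
theorem conc_rows {p : ℝ} (hp0 : 0 ≤ p) (hp1 : p ≤ 1) {s : ℕ}
    (hs : ∀ x σ P r, (tch x σ P r).card ≤ s)
    (hst : ∀ x σ σ' P r, (∀ g ∈ tch x σ P r, σ' g.1 g.2 = σ g.1 g.2) →
      (tch x σ' P r = tch x σ P r ∧ (acc x σ' P r ↔ acc x σ P r)))
    (hq : |(1 - p) ^ K - 1 / 2| ≤ p) (ρ : ℕ) {t D : ℝ} (ht0 : 0 ≤ t) (ht1 : t ≤ 1)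
    (hD : 12 * (Fintype.card X * s) ≤ ((ρ : ℝ) + 1) * D) :
    Ex (rowW p K) (fun σ => if (Fintype.card X : ℝ) / 2 + D <
      (univ.filter fun x => Cr acc x σ).card then (1 : ℝ) else 0) ≤
      Real.exp (-(t * (D / ((ρ : ℝ) + 1)))) *
        Real.exp (t ^ 2 / 2 + 3 * (p + 6 * (s * p)) * t) ^ Fintype.card X := by
  have hw0 : ∀ a, 0 ≤ rowW p K a := rowW_nonneg hp0 hp1
  set η : ℝ := p + 6 * (s * p) with hη
  have hη0 : 0 ≤ η := by positivity
  set B : ℝ := Real.exp (t ^ 2 / 2 + 3 * η * t) with hB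
  have hB1 : 1 ≤ B := Real.one_le_exp (by positivity)
  -- the indicator
  have h1 : ∀ σ : X → Fin K → Bool, (if (Fintype.card X : ℝ) / 2 + D <
      (univ.filter fun x => Cr acc x σ).card then (1 : ℝ) else 0) ≤
      Real.exp (-(t * (D / ((ρ : ℝ) + 1)))) *
        Ex (ul ρ) (fun c => Real.exp (t * TT (ρ := ρ) acc tch σ c)) := by
    intro σ
    split_ifs with h
    · have h2 := mean_ge hs hst ρ hD σ h
      have h3 := exp_Ex (ul_nonneg ρ) (ul_sum ρ) (fun c => t * TT (ρ := ρ) acc tch σ c)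
      rw [Ex_smul] at h3
      refine le_trans ?_ (mul_le_mul_of_nonneg_left h3 (Real.exp_pos _).le)
      rw [← Real.exp_add]
      refine Real.one_le_exp ?_
      have := mul_le_mul_of_nonneg_left h2 ht0
      linarith
    · exact mul_nonneg (Real.exp_pos _).le
        (Ex_nonneg (ul_nonneg ρ) fun c => (Real.exp_pos _).le)
  refine (Ex_mono hw0 h1).trans ?_
  rw [Ex_smul]
  refine mul_le_mul_of_nonneg_left ?_ (Real.exp_pos _).le
  rw [Ex_comm]
  -- one set
  have h2 : ∀ c : X → Fin (ρ + 1), Ex (rowW p K) (fun σ =>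
      Real.exp (t * TT (ρ := ρ) acc tch σ c)) ≤ B ^ Fintype.card X := by
    intro c
    have h3 : (fun σ : X → Fin K → Bool => Real.exp (t * TT (ρ := ρ) acc tch σ c)) = fun σ =>
        ∏ x ∈ Sc c, Real.exp (t * (if EE acc tch x (Sc c) (out (Sc c) σ) (σ x) then (1 : ℝ)
          else -1)) := by
      funext σ
      unfold TT
      rw [← Finset.sum_filter, Finset.mul_sum, Real.exp_sum]
      rfl
    rw [h3]
    have h4 := prodE (w := rowW p K) hw0 (rowW_sum p) (Sc c) (fun x τ a =>
      Real.exp (t * (if EE acc tch x (Sc c) τ a then (1 : ℝ) else -1)))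
      (fun x τ a => (Real.exp_pos _).le) (B := B) (by linarith) (fun x τ => by
        have h5 : ∀ a, rowW p K a * Real.exp (t * (if EE acc tch x (Sc c) τ a then (1 : ℝ)
            else -1)) = Real.exp (-t) * rowW p K a + (Real.exp t - Real.exp (-t)) *
              (rowW p K a * (if EE acc tch x (Sc c) τ a then (1 : ℝ) else 0)) := by
          intro a
          split_ifs
          · rw [mul_one]
            ring
          · rw [mul_neg, mul_one]
            ring
        rw [Finset.sum_congr rfl fun a _ => h5 a, Finset.sum_add_distrib, ← Finset.mul_sum,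
          ← Finset.mul_sum, rowW_sum, mul_one]
        have h6 := EE_prob (acc := acc) hp0 hp1 hs hq x (Sc c) τ
        have h7 : 0 ≤ Real.exp t - Real.exp (-t) := by
          have : Real.exp (-t) ≤ Real.exp t := Real.exp_le_exp.2 (by linarith)
          linarith
        have h8 := mul_le_mul_of_nonneg_left h6 h7
        exact (add_le_add_right h8 _).trans (B_le ht0 ht1 hη0)) (Sc c) (Finset.Subset.refl _)
    refine h4.trans (pow_le_pow_right₀ hB1 ?_)
    exact Finset.card_le_univ _
  refine (Ex_mono (ul_nonneg ρ) h2).trans (le_of_eq (Ex_const (ul_sum ρ) _))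

end rows

section bits

variable {X : Type} [Fintype X] [DecidableEq X] {K m : ℕ}
variable {PP Ω : Type} [Fintype Ω] [Nonempty PP] [Nonempty Ω]

open Classical in
/-- **Few inputs are correct, with high probability**: random bits. -/
theorem conc_bits (hm : 1 ≤ m)
    (acc : X → ((X × Fin K) × Fin m → Bool) → PP → Ω → Prop)
    (Q : X → ((X × Fin K) × Fin m → Bool) → PP → Ω → Finset ((X × Fin K) × Fin m)) {s : ℕ}
    (hs : ∀ x ω P r, (Q x ω P r).card ≤ s)
    (hst : ∀ x ω ω' P r, (∀ i ∈ Q x ω P r, ω' i = ω i) →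
      (Q x ω' P r = Q x ω P r ∧ (acc x ω' P r ↔ acc x ω P r)))
    (hq : |(1 - ((1 : ℝ) / 2) ^ m) ^ K - 1 / 2| ≤ (1 / 2) ^ m) (ρ : ℕ) {t D : ℝ}
    (ht0 : 0 ≤ t) (ht1 : t ≤ 1) (hD : 12 * (Fintype.card X * s) ≤ ((ρ : ℝ) + 1) * D) :
    Ex (ber (1 / 2)) (fun ω : (X × Fin K) × Fin m → Bool =>
      if (Fintype.card X : ℝ) / 2 + D < (univ.filter fun x => Cor acc ω x).card then (1 : ℝ)
        else 0) ≤
      Real.exp (-(t * (D / ((ρ : ℝ) + 1)))) *
        Real.exp (t ^ 2 / 2 + 3 * ((1 / 2) ^ m + 6 * (s * (1 / 2) ^ m)) * t) ^ Fintype.card X := by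
  rw [Ex_mixture hm]
  refine Ex_le_of_support (nall_nonneg hm) (nall_sum hm) fun P hP => ?_
  have hP' : ∀ g, ∃ j, P g j = false := by
    intro g
    by_contra hcon
    push Not at hcon
    refine hP g ?_
    unfold nall
    rw [if_pos]
    intro i
    have := hcon i
    cases h : P g i
    · exact absurd h this
    · rfl
  rw [Ex_curry]
  set p : ℝ := (1 / 2) ^ m with hp
  have hp0 : 0 ≤ p := by positivity
  have hp1 : p ≤ 1 := pow_le_one₀ (by norm_num) (by norm_num)
  have hcΩ : (0 : ℝ) < Fintype.card Ω := by exact_mod_cast Fintype.card_pos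
  set mk : (X → Fin K → Bool) → ((X × Fin K) × Fin m → Bool) := fun σ gi =>
    σ gi.1.1 gi.1.2 || P gi.1 gi.2 with hmk
  have hrow : ∀ σ x, (∃ k, ∀ j, mk σ ((x, k), j) = true) ↔ σ x ≠ zrow K := by
    intro σ x
    constructor
    · rintro ⟨k, hk⟩ h0
      obtain ⟨j, hj⟩ := hP' (x, k)
      have h1 := hk j
      simp only [hmk, h0, zrow, hj] at h1
      exact Bool.noConfusion h1
    · intro h0
      by_contra hcon
      push Not at hcon
      refine h0 (funext fun k => ?_)
      obtain ⟨j, hj⟩ := hcon k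
      show σ x k = false
      cases h1 : σ x k
      · rfl
      · exfalso
        refine hj ?_
        simp only [hmk, h1, Bool.true_or]
  have hcor : ∀ σ x, Cor acc (mk σ) x → Cr (fun x σ => acc x (mk σ)) x σ := by
    intro σ x h
    unfold Cor at h
    rw [hrow] at h
    refine ⟨fun h0 => ?_, fun h0 P' => ?_⟩
    · obtain ⟨P', hP''⟩ := h.1 (not_not.2 h0)
      refine ⟨P', ?_⟩
      rw [div_le_div_iff₀ (by norm_num) hcΩ] at hP''
      have h3 : (2 : ℝ) * Fintype.card Ω ≤ 3 * cnt (acc x (mk σ) P') := by linarith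
      exact_mod_cast h3
    · have h2 := h.2 h0 P'
      rw [div_le_div_iff₀ hcΩ (by norm_num)] at h2
      have h3 : (3 : ℝ) * cnt (acc x (mk σ) P') ≤ Fintype.card Ω := by linarith
      exact_mod_cast h3
  have h3 := conc_rows (p := p) (s := s) hp0 hp1 (acc := fun x σ => acc x (mk σ))
    (tch := fun x σ P r => (Q x (mk σ) P r).image Prod.fst)
    (fun x σ P r => Finset.card_image_le.trans (hs _ _ _ _)) (fun x σ σ' P r h => by
      have h4 := hst x (mk σ) (mk σ') P r fun i hi => by
        have h1 := h i.1 (Finset.mem_image_of_mem _ hi)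
        simp only [hmk, h1]
      rw [h4.1]
      exact ⟨rfl, h4.2⟩) hq ρ ht0 ht1 hD
  refine le_trans ?_ h3
  refine Ex_mono (rowW_nonneg hp0 hp1) fun σ => ?_
  have h4 : ((univ.filter fun x => Cor acc (mk σ) x).card : ℝ) ≤
      (univ.filter fun x => Cr (fun x σ => acc x (mk σ)) x σ).card := by
    refine Nat.cast_le.2 (Finset.card_le_card fun x hx => ?_)
    rw [Finset.mem_filter] at hx ⊢
    exact ⟨hx.1, hcor σ x hx.2⟩
  split_ifs with h5 h6
  · exact le_rfl
  · exact absurd (h5.trans_le h4) h6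
  · norm_num
  · exact le_rfl

end bits

end Pool.Agent.J6H31.AX
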