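import Pool.Agent.J6H31.AX.Prob

/-!
# `coNP` is hard on average for interactive proofs with side oracles of subexponential density
-/

set_option autoImplicit false

namespace Pool.Agent.J6H31.AX

open Pool.Agent.NPC Pool.Agent.H628R3.RO Pool.Agent.J6H49.AM Filter Pool.Agent.J6H49.OP
open MeasureTheory
open Pool.Agent.TH678.GC (join)
open Pool.Agent.TH678.RS (bt)
open Pool.Agent.Y626.WX (Cp exists_cp cod)
open Pool.Agent.J6H49.PHC (oracle)
open Pool.Agent.J6H49.BI (fair prob_le_of_ovw2)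
open Pool.Agent.J6H49.IP (talk Accepts il CorrectAt val val_eq lb tq rq La Tb tbl card_Tb exists_tbl
  correct_congr De SubexpDense ev_late ev_dense ro_eq)
open Pool.Agent.J6H31.AV (tab tab_iff KK KK_le KK_spec)
open Pool.Agent.J6H7.RO (ovw ovw_pos ovw_off prob)

/-- some side table makes the verifier correct for many strings of length `n` -/
def Evt (Φ : Oracle → Oracle) (μ : ℕ → ℕ) (C : Oracle) (M : Alg) (p : Polynomial ℕ) (n : ℕ) :
    Set Oracle :=
  {A | ∃ f : Tb (La M p n) (De n), A ∈ Many Φ μ C (tbl f) M p n}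

variable {α : ℕ → ℕ} {g : ℕ → Pool.Agent.H620R2.Gauge.SAlg × Polynomial ℕ}
  {S : ℕ → Polynomial ℕ} {Φ : Oracle → Oracle}

theorem exp_le_half (E : ℕ) {e : ℝ} (h : (E : ℝ) ≤ e) : Real.exp (-e) ≤ (1 / 2) ^ E := by
  have h1 : Real.exp (-e) ≤ Real.exp (-(E : ℝ)) := Real.exp_le_exp.2 (by linarith)
  refine h1.trans ?_
  have h2 : Real.exp (-(E : ℝ)) = Real.exp (-1) ^ E := by
    rw [← Real.exp_nat_mul]
    congr 1
    ring
  rw [h2]
  refine pow_le_pow_left₀ (Real.exp_pos _).le ?_ _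
  rw [Real.exp_neg, one_div]
  refine inv_anti₀ (by norm_num) ?_
  have := Real.add_one_le_exp (1 : ℝ)
  linarith

theorem prob_evt (hc : Cp g S (bt α) Φ) {μ : ℕ → ℕ} (hμ : ∀ n, μ n ≤ n) (C : Oracle) (M : Alg)
    (p : Polynomial ℕ) {n : ℕ} (hn : 1 ≤ n) (hl : La M p n ≤ lam α n)
    (hE : 1008 * (rq M p n + 1) ^ 2 * 4 ^ kk μ n ≤ 2 ^ μ n)
    (hF : 576 * (rq M p n + 1) ^ 2 * 16 ^ kk μ n * (n + (La M p n + 2) * De n) ≤ 2 ^ n) :
    prob (fun _ => fair) (Evt Φ μ C M p n) ≤ (1 / 2) ^ n := by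
  classical
  have hsub : Evt Φ μ C M p n ⊆ ⋃ f ∈ (Finset.univ : Finset (Tb (La M p n) (De n))),
      Many Φ μ C (tbl f) M p n := by
    rintro A ⟨f, hf⟩
    simp only [Set.mem_iUnion]
    exact ⟨f, Finset.mem_univ _, hf⟩
  set E := n + (La M p n + 2) * De n with hEdef
  have h1 : ∀ f ∈ (Finset.univ : Finset (Tb (La M p n) (De n))),
      prob (fun _ => fair) (Many Φ μ C (tbl f) M p n) ≤ (1 / 2) ^ E := by
    intro f _
    have hm := meas_many hc hμ C (tbl f) M p n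
    have key := prob_le_of_ovw2 (q := fair) (posB_inj μ n) hm hm (κ := 0)
      (ε := (1 / 2) ^ E) fun A => ?_
    · linarith
    rw [zero_mul, zero_add]
    have hfair : (fair : ℝ) = 1 / 2 := rfl
    rw [hfair]
    refine (one_table hc C (tbl f) A M p hn hl hE).trans (exp_le_half E ?_)
    rw [le_div_iff₀ (by positivity)]
    have h2 : (((576 * (rq M p n + 1) ^ 2 * 16 ^ kk μ n * E : ℕ) : ℝ)) ≤ ((2 ^ n : ℕ) : ℝ) := by
      exact_mod_cast hF
    push_cast at h2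
    linarith
  have h2 : prob (fun _ => fair) (Evt Φ μ C M p n) ≤
      ∑ _f : Tb (La M p n) (De n), ((1 : ℝ) / 2) ^ E := by
    refine (measureReal_mono hsub (measure_ne_top _ _)).trans
      ((measureReal_biUnion_finset_le _ _).trans (Finset.sum_le_sum fun f hf => ?_))
    exact h1 f hf
  refine h2.trans ?_
  rw [Finset.sum_const, Finset.card_univ, nsmul_eq_mul]
  have h3 : (Fintype.card (Tb (La M p n) (De n)) : ℝ) ≤ (2 ^ (La M p n + 2)) ^ De n := by
    exact_mod_cast card_Tb (La M p n) (De n)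
  calc (Fintype.card (Tb (La M p n) (De n)) : ℝ) * (1 / 2) ^ E
      ≤ (2 ^ (La M p n + 2)) ^ De n * (1 / 2) ^ E :=
        mul_le_mul_of_nonneg_right h3 (by positivity)
    _ = ((2 : ℝ) * (1 / 2)) ^ ((La M p n + 2) * De n) * (1 / 2) ^ n := by
        rw [hEdef, pow_add (1 / 2 : ℝ) n, ← pow_mul, mul_pow]
        ring
    _ = (1 / 2) ^ n := by norm_num

/-! ### The sizes -/

theorem ev_sizes1 (M : Alg) (p : Polynomial ℕ) (μ : ℕ → ℕ) : ∀ᶠ n : ℕ in atTop,
    576 * (rq M p n + 1) ^ 2 * 16 ^ kk μ n * (n + (La M p n + 2) * De n) ≤ 2 ^ n := by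
  set I : Polynomial ℕ := 2 * Polynomial.X + 1 + (2 * p + 1 + p * (2 * p + 1)) with hI
  have hIe : ∀ n, I.eval n = il n (p.eval n) := by
    intro n
    simp only [hI, il, Polynomial.eval_add, Polynomial.eval_mul, Polynomial.eval_ofNat,
      Polynomial.eval_X, Polynomial.eval_one]
  set Q : Polynomial ℕ := 576 * ((p + 1) * M.p.comp I + 1) ^ 2 *
    (Polynomial.X + ((lb M).comp I + 2)) with hQ
  have hQe : ∀ n, Q.eval n = 576 * (rq M p n + 1) ^ 2 * (n + (La M p n + 2)) := by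
    intro n
    simp only [hQ, rq, La, Polynomial.eval_add, Polynomial.eval_mul, Polynomial.eval_ofNat,
      Polynomial.eval_comp, Polynomial.eval_X, Polynomial.eval_one, Polynomial.eval_pow, hIe]
  obtain ⟨N, hN⟩ := Pool.Agent.J6H54.RO.poly_le_two_pow (Q ^ 10)
  filter_upwards [eventually_ge_atTop N, eventually_ge_atTop 121] with n hn h9
  have h1 := hN n hn
  rw [Polynomial.eval_pow] at h1
  have h2 : Q.eval n ^ 10 ≤ 2 ^ n := by omega
  have h3 : 11 ≤ Nat.sqrt n := by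
    rw [Nat.le_sqrt]
    omega
  have h4 : Nat.sqrt n * Nat.sqrt n ≤ n := Nat.sqrt_le n
  have h5 : De n ^ 10 ≤ 2 ^ n := by
    unfold De
    rw [← pow_mul]
    refine Nat.pow_le_pow_right (by norm_num) ?_
    nlinarith
  have h6 : (16 ^ kk μ n) ^ 10 ≤ (2 ^ n) ^ 8 := by
    have h7 : kk μ n ≤ n / 5 := min_le_left _ _
    have h8 : (16 : ℕ) = 2 ^ 4 := by norm_num
    rw [h8, ← pow_mul, ← pow_mul, ← pow_mul]
    refine Nat.pow_le_pow_right (by norm_num) ?_
    omega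
  have h7 : Q.eval n * De n * 16 ^ kk μ n ≤ 2 ^ n := by
    have h8 : (Q.eval n * De n * 16 ^ kk μ n) ^ 10 ≤ (2 ^ n) ^ 10 := by
      calc (Q.eval n * De n * 16 ^ kk μ n) ^ 10
          = Q.eval n ^ 10 * De n ^ 10 * (16 ^ kk μ n) ^ 10 := by ring
        _ ≤ 2 ^ n * 2 ^ n * (2 ^ n) ^ 8 := Nat.mul_le_mul (Nat.mul_le_mul h2 h5) h6
        _ = (2 ^ n) ^ 10 := by ring
    exact (Nat.pow_le_pow_iff_left (by norm_num)).1 h8
  refine le_trans ?_ h7
  rw [hQe]
  have hD : 1 ≤ De n := Nat.one_le_two_pow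
  have h8 : n + (La M p n + 2) * De n ≤ (n + (La M p n + 2)) * De n := by
    have : n ≤ n * De n := Nat.le_mul_of_pos_right _ hD
    calc n + (La M p n + 2) * De n ≤ n * De n + (La M p n + 2) * De n := by omega
      _ = _ := by ring
  calc 576 * (rq M p n + 1) ^ 2 * 16 ^ kk μ n * (n + (La M p n + 2) * De n)
      ≤ 576 * (rq M p n + 1) ^ 2 * 16 ^ kk μ n * ((n + (La M p n + 2)) * De n) :=
        Nat.mul_le_mul_left _ h8
    _ = _ := by ring

theorem ev_sizes2 (M : Alg) (p : Polynomial ℕ) {μ : ℕ → ℕ}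
    (hμ : ∀ c : ℕ, ∀ᶠ n : ℕ in atTop, n ^ c ≤ 2 ^ μ n) : ∀ᶠ n : ℕ in atTop,
    1008 * (rq M p n + 1) ^ 2 * 4 ^ kk μ n ≤ 2 ^ μ n := by
  set I : Polynomial ℕ := 2 * Polynomial.X + 1 + (2 * p + 1 + p * (2 * p + 1)) with hI
  have hIe : ∀ n, I.eval n = il n (p.eval n) := by
    intro n
    simp only [hI, il, Polynomial.eval_add, Polynomial.eval_mul, Polynomial.eval_ofNat,
      Polynomial.eval_X, Polynomial.eval_one]
  set Q : Polynomial ℕ := 1008 * ((p + 1) * M.p.comp I + 1) ^ 2 with hQ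
  have hQe : ∀ n, Q.eval n = 1008 * (rq M p n + 1) ^ 2 := by
    intro n
    simp only [hQ, rq, Polynomial.eval_add, Polynomial.eval_mul, Polynomial.eval_ofNat,
      Polynomial.eval_comp, Polynomial.eval_one, Polynomial.eval_pow, hIe]
  obtain ⟨c, hc⟩ := Pool.Agent.J6H49.BI.eval_le_self_pow (Q ^ 3)
  filter_upwards [hc, hμ c] with n h1 h2
  rw [Polynomial.eval_pow] at h1
  have h3 : Q.eval n ^ 3 ≤ 2 ^ μ n := h1.trans h2
  have h4 : (4 ^ kk μ n) ^ 3 ≤ (2 ^ μ n) ^ 2 := by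
    have h7 : kk μ n ≤ μ n / 3 := min_le_right _ _
    have h8 : (4 : ℕ) = 2 ^ 2 := by norm_num
    rw [h8, ← pow_mul, ← pow_mul, ← pow_mul]
    refine Nat.pow_le_pow_right (by norm_num) ?_
    omega
  rw [← hQe]
  have h5 : (Q.eval n * 4 ^ kk μ n) ^ 3 ≤ (2 ^ μ n) ^ 3 := by
    calc (Q.eval n * 4 ^ kk μ n) ^ 3 = Q.eval n ^ 3 * (4 ^ kk μ n) ^ 3 := by ring
      _ ≤ 2 ^ μ n * (2 ^ μ n) ^ 2 := Nat.mul_le_mul h3 h4
      _ = (2 ^ μ n) ^ 3 := by ring
  exact (Nat.pow_le_pow_iff_left (by norm_num)).1 h5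

theorem ae_one (hc : Cp g S (bt α) Φ) (hα : Monotone α) (hα' : Tendsto α atTop atTop)
    {μ : ℕ → ℕ} (hμ : ∀ n, μ n ≤ n) (hμ' : ∀ c : ℕ, ∀ᶠ n : ℕ in atTop, n ^ c ≤ 2 ^ μ n)
    (C : Oracle) (M : Alg) (p : Polynomial ℕ) :
    ∀ᵐ A ∂(Pool.Agent.J6H7.RO.randomOracle fun _ => fair),
      ∀ᶠ n : ℕ in atTop, A ∉ Evt Φ μ C M p n := by
  obtain ⟨n₀, h0⟩ := eventually_atTop.1 ((((ev_sizes1 M p μ).and (ev_sizes2 M p hμ')).and
    (ev_late hα hα' M p)).and (eventually_ge_atTop 1))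
  have h1 : ∀ n, prob (fun _ => fair) (Evt Φ μ C M p (n + n₀)) ≤ (1 / 2) ^ (n + n₀) := by
    intro n
    obtain ⟨⟨⟨h2, h3⟩, h4⟩, h5⟩ := h0 (n + n₀) (by omega)
    exact prob_evt hc hμ C M p h5 h4 h3 h2
  have h2 : ∑' n, (Pool.Agent.J6H7.RO.randomOracle fun _ => fair)
      (Evt Φ μ C M p (n + n₀)) ≠ ⊤ := by
    have hs : Summable (fun n : ℕ => (1 / 2 : ℝ) ^ (n + n₀)) :=
      (summable_nat_add_iff n₀).2 (summable_geometric_of_lt_one (by norm_num) (by norm_num))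
    have h3 : ∀ n, (Pool.Agent.J6H7.RO.randomOracle fun _ => fair)
        (Evt Φ μ C M p (n + n₀)) ≤ ENNReal.ofReal ((1 / 2) ^ (n + n₀)) := by
      intro n
      rw [← ofReal_measureReal (measure_ne_top _ _)]
      exact ENNReal.ofReal_le_ofReal (h1 n)
    exact ne_top_of_le_ne_top hs.tsum_ofReal_ne_top (ENNReal.tsum_le_tsum h3)
  filter_upwards [ae_eventually_notMem h2] with A hA
  obtain ⟨a, ha⟩ := eventually_atTop.1 hA
  filter_upwards [eventually_ge_atTop (a + n₀)] with n hn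
  have h4 := ha (n - n₀) (by omega)
  rwa [Nat.sub_add_cancel (by omega)] at h4

/-- **The main theorem**: a random oracle with late information. -/
theorem ae_main (hc : Cp g S (bt α) Φ) (hα : Monotone α) (hα' : Tendsto α atTop atTop)
    {μ : ℕ → ℕ} (hμ : ∀ n, μ n ≤ n) (hμ' : ∀ c : ℕ, ∀ᶠ n : ℕ in atTop, n ^ c ≤ 2 ^ μ n)
    (C : Oracle) : ∀ᵐ A ∂randomOracle, ∀ T : Oracle, SubexpDense T →
      ∀ V : List Bool → List Bool, IsFP (join (oracle Φ (join C (tab μ)) A) T) V →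
        ∀ p : Polynomial ℕ, ∀ᶠ n : ℕ in atTop,
          (num V p n (hardB μ A) : ℝ) ≤ 2 ^ n / 2 + 2 ^ n / 2 ^ min (n / 5) (μ n / 3) := by
  rw [← ro_eq]
  have h : ∀ᵐ A ∂(Pool.Agent.J6H7.RO.randomOracle fun _ => fair), ∀ q : Alg × Polynomial ℕ,
      ∀ᶠ n : ℕ in atTop, A ∉ Evt Φ μ C q.1 q.2 n := by
    have hcp : Countable (Polynomial ℕ) := Pool.Agent.H622R2.Exp.N1.countable_poly
    rw [ae_all_iff]
    exact fun q => ae_one hc hα hα' hμ hμ' C q.1 q.2
  filter_upwards [h] with A hA T hT V hV p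
  obtain ⟨M, hM⟩ := hV
  filter_upwards [hA (M, p), ev_dense hT M p] with n h2 h3
  by_contra hcon
  push Not at hcon
  obtain ⟨f, hf⟩ := exists_tbl h3
  refine h2 ⟨f, ?_⟩
  show (2 : ℝ) ^ n / 2 + 2 ^ n / 2 ^ kk μ n <
    num (val M (OT Φ μ C (tbl f) A)) p n (hardB μ A)
  have e : num (val M (OT Φ μ C (tbl f) A)) p n (hardB μ A) = num V p n (hardB μ A) := by
    unfold num
    congr 1
    ext x
    refine and_congr_right fun hxn => ?_
    rw [← val_eq hM]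
    refine correct_congr (M := M) (p := p) Iff.rfl fun q hq => ?_
    match q with
    | [] => rfl
    | false :: s => rfl
    | true :: s =>
      show tbl f s = T s
      refine hf s ?_
      rw [List.length_cons, hxn] at hq
      unfold La
      omega
  rw [e]
  exact hcon

/-- the general statement -/
theorem main (α : ℕ → ℕ) (hα : Monotone α) (hα' : Tendsto α atTop atTop) (C : Oracle)
    (μ : ℕ → ℕ) (hμ : ∀ n, μ n ≤ n) (hμ' : ∀ c : ℕ, ∀ᶠ n : ℕ in atTop, n ^ c ≤ 2 ^ μ n) :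
    ∃ O : Oracle → Oracle,
      (∀ A, NearlyCollapsed α (O A) ∧ Contains (O A) A ∧ Contains (O A) C) ∧
      ∀ᵐ A ∂randomOracle, ∃ L : Set (List Bool), IsNP (O A) L ∧
        (∃ V : List Bool → List Bool, IsFP (O A) V ∧ ∀ x, x ∈ L ↔
          ∃ y : List Bool, y.length = μ x.length ∧ V (pairBits x y) = [true]) ∧
        ∀ T : Oracle, SubexpDense T → ∀ V : List Bool → List Bool, IsFP (join (O A) T) V →
          ∀ p : Polynomial ℕ, ∀ᶠ n : ℕ in atTop,
            (num V p n L : ℝ) ≤ 2 ^ n / 2 + 2 ^ n / 2 ^ min (n / 5) (μ n / 3) := by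
  obtain ⟨g, hg⟩ := Pool.Agent.H620R2.Gauge.CC.exists_enum
  obtain ⟨S, Φ, hc⟩ := exists_cp g (bt (slow2 α))
  refine ⟨oracle Φ (join C (tab μ)), fun A => ⟨?_, ⟨[false, false], fun x => rfl⟩,
    ⟨[false, true, false], fun x => rfl⟩⟩, ?_⟩
  · exact nearly hg hα hc (join A (join C (tab μ)))
  · filter_upwards [ae_main hc (slow2_mono hα) (slow2_tendsto hα') hμ hμ' C] with A hA
    exact ⟨hardB μ A, isNP_hardB hμ (pre := [false, false]) (pre' := [false, true, true])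
      (fun x => rfl) (fun x => rfl), hardB_guess (pre := [false, false])
      (pre' := [false, true, true]) (fun x => rfl) (fun x => rfl), hA⟩

end Pool.Agent.J6H31.AX
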