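import Pool.Agent.J6H49.IP.Main
import Pool.Agent.J6H31.AV.Corr
import Pool.Agent.J6H31.AX.Conc

/-!
# The language, with the nondeterminism `μ n`
-/

set_option autoImplicit false

namespace Pool.Agent.J6H31.AX

open Pool.Agent.NPC Pool.Agent.H628R3.RO Pool.Agent.J6H49.AM Filter Pool.Agent.J6H49.OP
open MeasureTheory
open Pool.Agent.TH678.GC (join)
open Pool.Agent.TH678.RS (bt)
open Pool.Agent.Y626.WX (Cp exists_cp cod)
open Pool.Agent.J6H49.PHC (oracle)
open Pool.Agent.J6H31.AV (tab tab_iff KK KK_le KK_spec pairBits_inj')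
open Pool.Agent.J6H49.EE (poly_repl)
open Pool.Agent.H622R2 (poly_pairBits)
open Pool.Agent.H620R2.Gauge (bitsOf length_bitsOf bitsOf_inj exists_bitsOf)
open Pool.Agent.H622R2.Exp.A4 (poly_allid)
open Pool.Agent.J6H7.RO (ovw ovw_pos ovw_off)

/-- the string for the `j`-th bit of the block of `w` for `x` -/
def cdB (x w : List Bool) (j : ℕ) : List Bool :=
  pairBits x (pairBits w (List.replicate j true))

/-- **The language.** -/
def hardB (μ : ℕ → ℕ) (A : Oracle) : Set (List Bool) :=
  {x | ∃ w, tab μ (pairBits x w) = true ∧ ∀ j < w.length, A (cdB x w j) = true}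

theorem length_cdB (x w : List Bool) (j : ℕ) :
    (cdB x w j).length = 2 * x.length + 1 + (2 * w.length + 1 + j) := by
  unfold cdB
  rw [Pool.Agent.H620R2.Gauge.length_pairBits, Pool.Agent.H620R2.Gauge.length_pairBits,
    List.length_replicate]

/-- the questions of the verifier -/
def vq (pre : List Bool) (y : List Bool) (l : ℕ) : List Bool :=
  pre ++ pairBits (unpair y).1 (pairBits (unpair y).2 (List.replicate (min l y.length) true))

/-- the questions of the verifier -/
def vqs (pre pre' : List Bool) (y : List Bool) : List (List Bool) :=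
  (pre' ++ pairBits (unpair y).1 (unpair y).2) ::
    (List.range (unpair y).2.length).map (vq pre y)

theorem poly_vq (pre : List Bool) : Poly (fun p : List Bool × ℕ => vq pre p.1 p.2) := by
  have h2 : UPoly (fun x : List Bool => x.length) := UPoly.length Poly.id
  have h3 : UPoly (fun p : List Bool × ℕ => min p.2 p.1.length) :=
    UPoly.of_le (Poly.min (Poly.snd Poly.id) (Poly.length (Poly.fst Poly.id)))
      (h2.comp (Poly.fst Poly.id)) (fun p => min_le_right _ _)
  have h4 : Poly (fun p : List Bool × ℕ => unpair p.1) := poly_unpair.comp (Poly.fst Poly.id)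
  exact Poly.append (NPC.Poly.const pre) (poly_pairBits (Poly.fst h4)
    (poly_pairBits (Poly.snd h4) (poly_repl h3)))

theorem poly_vqs (pre pre' : List Bool) : Poly (vqs pre pre') := by
  have h4 : Poly (fun p : List Bool => unpair p) := poly_unpair
  have h5 : UPoly (fun z : List Bool => (unpair z).2.length) := UPoly.length (Poly.snd h4)
  exact Poly.cons (Poly.append (NPC.Poly.const pre') (poly_pairBits (Poly.fst h4) (Poly.snd h4)))
    (NPC.Poly.map (F := fun x l => vq pre x l) h5.range (poly_vq pre))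

/-- the verifier -/
def vv (B : Oracle) (pre pre' : List Bool) (y : List Bool) : List Bool :=
  [((vqs pre pre' y).map B).all id]

theorem isFP_vv (B : Oracle) (pre pre' : List Bool) : IsFP B (vv B pre pre') := by
  have h2 : Poly (fun p : List Bool × List Bool => [p.2.all id]) :=
    Poly.cons (poly_allid (Poly.snd Poly.id)) (NPC.Poly.const [])
  exact IsFP.tt (A := B) (H := fun p => [p.2.all id]) (poly_vqs pre pre') h2

theorem vv_iff {B A : Oracle} {μ : ℕ → ℕ} {pre pre' : List Bool}
    (hA : ∀ q, B (pre ++ q) = A q) (hT : ∀ q, B (pre' ++ q) = tab μ q) (x w : List Bool) :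
    vv B pre pre' (pairBits x w) = [true] ↔
      tab μ (pairBits x w) = true ∧ ∀ j < w.length, A (cdB x w j) = true := by
  have h1 : unpair (pairBits x w) = (x, w) := unpair_pairBits _ _
  have hlen : w.length ≤ (pairBits x w).length := by
    rw [Pool.Agent.H620R2.Gauge.length_pairBits]
    omega
  have h3 : ∀ j < w.length, B (vq pre (pairBits x w) j) = A (cdB x w j) := by
    intro j hj
    unfold vq cdB
    rw [h1]
    dsimp only
    rw [hA, min_eq_left (hj.le.trans hlen)]
  unfold vv vqs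
  simp only [List.cons.injEq, and_true, List.map_cons, List.all_cons, Bool.and_eq_true, id]
  rw [h1]
  dsimp only
  rw [hT]
  refine and_congr Iff.rfl ?_
  rw [List.all_eq_true]
  constructor
  · intro h j hj
    rw [← h3 j hj]
    exact h (B (vq pre (pairBits x w) j)) (by
      simp only [List.mem_map, List.mem_range]
      exact ⟨_, ⟨j, hj, rfl⟩, rfl⟩)
  · intro h b hb
    simp only [List.mem_map, List.mem_range] at hb
    obtain ⟨q, ⟨j, hj, rfl⟩, rfl⟩ := hb
    show B _ = true
    rw [h3 j hj]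
    exact h j hj

/-- the verifier with the exact number of the guessed bits -/
theorem hardB_guess {B A : Oracle} {μ : ℕ → ℕ} {pre pre' : List Bool}
    (hA : ∀ q, B (pre ++ q) = A q) (hT : ∀ q, B (pre' ++ q) = tab μ q) :
    ∃ V : List Bool → List Bool, IsFP B V ∧
      ∀ x, x ∈ hardB μ A ↔ ∃ y : List Bool, y.length = μ x.length ∧
        V (pairBits x y) = [true] := by
  refine ⟨vv B pre pre', isFP_vv B pre pre', fun x => ?_⟩
  show (∃ w, _ ∧ _) ↔ _
  refine exists_congr fun w => ?_
  rw [vv_iff hA hT]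
  constructor
  · intro h
    refine ⟨?_, h⟩
    obtain ⟨k, _, hk⟩ := (tab_iff μ x w).1 h.1
    rw [hk, length_bitsOf]
  · exact fun h => h.2

theorem isNP_hardB {B A : Oracle} {μ : ℕ → ℕ} (hμ : ∀ n, μ n ≤ n) {pre pre' : List Bool}
    (hA : ∀ q, B (pre ++ q) = A q) (hT : ∀ q, B (pre' ++ q) = tab μ q) : IsNP B (hardB μ A) := by
  refine ⟨vv B pre pre', Polynomial.X, isFP_vv B pre pre', fun x => ?_⟩
  rw [Polynomial.eval_X]
  show (∃ w, _ ∧ _) ↔ ∃ w : List Bool, w.length ≤ _ ∧ vv B pre pre' (pairBits x w) = [true]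
  refine exists_congr fun w => ?_
  rw [vv_iff hA hT]
  constructor
  · intro h
    refine ⟨?_, h⟩
    obtain ⟨k, _, hk⟩ := (tab_iff μ x w).1 h.1
    rw [hk, length_bitsOf]
    exact hμ _
  · exact fun h => h.2

/-! ### The positions -/

/-- the indices of the bits for the length `n` -/
abbrev Ib (μ : ℕ → ℕ) (n : ℕ) : Type := (Fin (2 ^ n) × Fin (KK (μ n))) × Fin (μ n)

/-- the positions of the bits of the blocks for the strings of length `n` -/
noncomputable def posB (μ : ℕ → ℕ) (n : ℕ) : Ib μ n → List Bool :=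
  fun i => cdB (bitsOf n i.1.1.val) (bitsOf (μ n) i.1.2.val) i.2.val

theorem posB_inj (μ : ℕ → ℕ) (n : ℕ) : Function.Injective (posB μ n) := by
  rintro ⟨⟨x, k⟩, j⟩ ⟨⟨x', k'⟩, j'⟩ h
  unfold posB cdB at h
  obtain ⟨h1, h2⟩ := pairBits_inj' h
  obtain ⟨h3, h4⟩ := pairBits_inj' h2
  have e1 : x = x' := Fin.ext (bitsOf_inj x.isLt x'.isLt h1)
  have e2 : k = k' := Fin.ext (bitsOf_inj (k.isLt.trans_le (KK_le _)) (k'.isLt.trans_le (KK_le _)) h3)
  have e3 : j = j' := by
    have := congrArg List.length h4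
    rw [List.length_replicate, List.length_replicate] at this
    exact Fin.ext this
  rw [e1, e2, e3]

theorem posB_len (μ : ℕ → ℕ) (n : ℕ) (i : Ib μ n) : n < (posB μ n i).length := by
  unfold posB
  rw [length_cdB, length_bitsOf]
  omega

theorem posB_short (μ : ℕ → ℕ) (n : ℕ) (ω : Ib μ n → Bool) (A : Oracle) {x : List Bool}
    (hx : x.length ≤ n) : ovw (posB μ n) ω A x = A x := by
  refine ovw_off _ _ fun i h => ?_
  have := posB_len μ n i
  rw [h] at this
  omega

theorem hardB_ovw {μ : ℕ → ℕ} {n : ℕ} (ω : Ib μ n → Bool) (A : Oracle) (x : Fin (2 ^ n)) :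
    bitsOf n x.val ∈ hardB μ (ovw (posB μ n) ω A) ↔ ∃ k, ∀ j, ω ((x, k), j) = true := by
  show (∃ w, _ ∧ _) ↔ _
  simp only [tab_iff, length_bitsOf]
  constructor
  · rintro ⟨w, ⟨k, hk, rfl⟩, h⟩
    refine ⟨⟨k, hk⟩, fun j => ?_⟩
    have h1 := h j.val (by rw [length_bitsOf]; exact j.isLt)
    have h2 := ovw_pos (posB_inj μ n) ω A ((x, ⟨k, hk⟩), j)
    rw [← h2]
    exact h1
  · rintro ⟨k, h⟩
    refine ⟨bitsOf (μ n) k.val, ⟨k.val, k.isLt, rfl⟩, fun j hj => ?_⟩
    rw [length_bitsOf] at hj
    have h2 := ovw_pos (posB_inj μ n) ω A ((x, k), ⟨j, hj⟩)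
    rw [h ⟨j, hj⟩] at h2
    exact h2

theorem hardB_congr {μ : ℕ → ℕ} (hμ : ∀ n, μ n ≤ n) {A A' : Oracle} {x : List Bool}
    (h : ∀ u : List Bool, u.length ≤ 5 * x.length + 2 → A u = A' u) :
    x ∈ hardB μ A ↔ x ∈ hardB μ A' := by
  show (∃ w, _ ∧ _) ↔ (∃ w, _ ∧ _)
  refine exists_congr fun w => and_congr_right fun hw => ?_
  refine forall_congr' fun j => forall_congr' fun hj => ?_
  obtain ⟨k, _, hk⟩ := (tab_iff μ x w).1 hw
  have h1 : w.length ≤ x.length := by
    rw [hk, length_bitsOf]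
    exact hμ _
  rw [h _ (by rw [length_cdB]; omega)]

end Pool.Agent.J6H31.AX
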