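import Pool.Agent.J6H31.AX.Lang
import Pool.Agent.J6H31.AW.Verif

/-!
# The probability that a verifier with a side table is correct for many strings of one length
-/

set_option autoImplicit false

namespace Pool.Agent.J6H31.AX

open Pool.Agent.NPC Pool.Agent.H628R3.RO Pool.Agent.J6H49.AM Filter Pool.Agent.J6H49.OP
open MeasureTheory Finset
open Pool.Agent.TH678.GC (join)
open Pool.Agent.TH678.RS (bt)
open Pool.Agent.Y626.WX (Cp exists_cp cod)
open Pool.Agent.J6H49.PHC (oracle)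
open Pool.Agent.J6H49.BI (fair prob_le_of_ovw2)
open Pool.Agent.J6H49.IP (talk Accepts il CorrectAt val lb tq tq_stab tq_acc tq_card tq_length rq La
  Tb tbl card_Tb exists_tbl correct_congr De)
open Pool.Agent.J6H31.AV (tab tab_iff KK KK_le KK_spec)
open Pool.Agent.H620R2.Gauge (bitsOf length_bitsOf bitsOf_inj exists_bitsOf)
open Pool.Agent.J6H7.RO (ovw ovw_pos ovw_off)
open Pool.Agent.H591R3.PHG (ber)
open H568R2 (Ex)
open Pool.Agent.J6H31.AW (Cor ncard_len)

/-- the number of the strings of length `n` for which the verifier is correct for the complement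
of `L` -/
noncomputable def num (V : List Bool → List Bool) (p : Polynomial ℕ) (n : ℕ)
    (L : Set (List Bool)) : ℕ :=
  Set.ncard {x : List Bool | x.length = n ∧ CorrectAt V p Lᶜ x}

/-- the exponent of the advantage -/
def kk (μ : ℕ → ℕ) (n : ℕ) : ℕ := min (n / 5) (μ n / 3)

/-- the oracle of the verifier -/
noncomputable def OT (Φ : Oracle → Oracle) (μ : ℕ → ℕ) (C T A : Oracle) : Oracle :=
  join (oracle Φ (join C (tab μ)) A) T

/-- the verifier with the side oracle `T` is correct for many strings of length `n` -/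
def Many (Φ : Oracle → Oracle) (μ : ℕ → ℕ) (C T : Oracle) (M : Alg) (p : Polynomial ℕ) (n : ℕ) :
    Set Oracle :=
  {A | (2 : ℝ) ^ n / 2 + 2 ^ n / 2 ^ kk μ n < num (val M (OT Φ μ C T A)) p n (hardB μ A)}

variable {α : ℕ → ℕ} {g : ℕ → Pool.Agent.H620R2.Gauge.SAlg × Polynomial ℕ}
  {S : ℕ → Polynomial ℕ} {Φ : Oracle → Oracle}

theorem meas_many (hc : Cp g S (bt α) Φ) {μ : ℕ → ℕ} (hμ : ∀ n, μ n ≤ n) (C T : Oracle) (M : Alg)
    (p : Polynomial ℕ) (n : ℕ) : MeasurableSet (Many Φ μ C T M p n) := by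
  refine measurableSet_of_loc (K := {x | x.length ≤ 5 * n + 2 + (lb M).eval (il n (p.eval n))})
    (finite_length_le _) ?_
  intro A A' h
  have h' : ∀ u : List Bool, u.length ≤ 5 * n + 2 + (lb M).eval (il n (p.eval n)) →
      A u = A' u := fun u hu => h u hu
  have e : {x : List Bool | x.length = n ∧ CorrectAt (val M (OT Φ μ C T A)) p (hardB μ A)ᶜ x} =
      {x : List Bool | x.length = n ∧ CorrectAt (val M (OT Φ μ C T A')) p (hardB μ A')ᶜ x} := by
    ext x
    refine and_congr_right fun hx => ?_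
    refine (correct_congr (M := M) (p := p) ?_ fun q hq => ?_).symm
    · exact not_congr (hardB_congr hμ fun u hu => h' u (by omega))
    · match q with
      | [] => rfl
      | true :: s => rfl
      | false :: s =>
        show oracle Φ (join C (tab μ)) A' s = oracle Φ (join C (tab μ)) A s
        refine O_loc hc (ℓ := s.length) (fun _ _ => rfl) (fun u hu => (h' u ?_).symm) le_rfl
        rw [List.length_cons, hx] at hq
        omega
  unfold Many num
  rw [Set.mem_ofPred_eq, Set.mem_ofPred_eq, e]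

/-- the changed oracle answers the questions of a conversation in the same way -/
theorem agree (hc : Cp g S (bt α) Φ) {μ : ℕ → ℕ} (C T A : Oracle) {n : ℕ} (hn : 1 ≤ n)
    (ω ω' : Ib μ n → Bool) {q : List Bool} (hq : q.length ≤ lam α n)
    (h : ∀ i, q = false :: false :: false :: posB μ n i → ω' i = ω i) :
    OT Φ μ C T (ovw (posB μ n) ω' A) q = OT Φ μ C T (ovw (posB μ n) ω A) q := by
  match q with
  | [] => rfl
  | true :: s => rfl
  | false :: s =>
    show oracle Φ (join C (tab μ)) (ovw (posB μ n) ω' A) s =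
      oracle Φ (join C (tab μ)) (ovw (posB μ n) ω A) s
    by_cases hs : ∃ u, s = [false, false] ++ u
    · obtain ⟨u, rfl⟩ := hs
      show ovw (posB μ n) ω' A u = ovw (posB μ n) ω A u
      by_cases hu : ∃ i, posB μ n i = u
      · obtain ⟨i, rfl⟩ := hu
        rw [ovw_pos (posB_inj μ n), ovw_pos (posB_inj μ n)]
        exact h i rfl
      · push Not at hu
        rw [ovw_off _ _ hu, ovw_off _ _ hu]
    · push Not at hs
      refine O_late hc hn (join C (tab μ)) (fun u hu => ?_) ?_ hs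
      · rw [posB_short μ n ω' A hu, posB_short μ n ω A hu]
      · rw [List.length_cons] at hq
        omega

theorem exps {n k s m : ℕ} (h : 1008 * (s + 1) ^ 2 * 4 ^ k ≤ 2 ^ m) :
    Real.exp (-(1 / (12 * ((s : ℝ) + 1) * 4 ^ k) * (2 ^ n / 2 ^ k / (12 * ((s : ℝ) + 1) * 2 ^ k)))) *
      Real.exp ((1 / (12 * ((s : ℝ) + 1) * 4 ^ k)) ^ 2 / 2 + 3 * ((1 / 2) ^ m +
        6 * (((s + 1 : ℕ) : ℝ) * (1 / 2) ^ m)) * (1 / (12 * ((s : ℝ) + 1) * 4 ^ k))) ^ (2 ^ n) ≤
      Real.exp (-(2 ^ n / (576 * ((s : ℝ) + 1) ^ 2 * 16 ^ k))) := by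
  have h4 : (4 : ℝ) ^ k = 2 ^ k * 2 ^ k := by rw [← mul_pow]; norm_num
  have h16 : (16 : ℝ) ^ k = 4 ^ k * 4 ^ k := by rw [← mul_pow]; norm_num
  set σ : ℝ := (s : ℝ) + 1 with hσ
  have hσ1 : 1 ≤ σ := by
    rw [hσ]
    have : (0 : ℝ) ≤ s := Nat.cast_nonneg s
    linarith
  have hσ0 : 0 < σ := by linarith
  set t : ℝ := 1 / (12 * σ * 4 ^ k) with ht
  have ht0 : 0 < t := by positivity
  have h1 : (2 : ℝ) ^ n / 2 ^ k / (12 * σ * 2 ^ k) = 2 ^ n * t := by
    rw [ht, h4]
    field_simp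
  have h2 : (2 : ℝ) ^ n / (576 * σ ^ 2 * 16 ^ k) = 2 ^ n * t ^ 2 / 4 := by
    rw [ht, h16]
    field_simp
    norm_num
  have hs' : ((s + 1 : ℕ) : ℝ) = σ := by rw [hσ]; push_cast; rfl
  rw [hs', h1, h2, ← Real.exp_nat_mul, ← Real.exp_add, Real.exp_le_exp]
  push_cast
  have h3 : 12 * ((1 / 2 : ℝ) ^ m + 6 * (σ * (1 / 2) ^ m)) ≤ t := by
    have h5 : (1008 : ℝ) * σ ^ 2 * 4 ^ k ≤ 2 ^ m := by
      rw [← hs']
      exact_mod_cast h
    have h6 : (1 / 2 : ℝ) ^ m = 1 / 2 ^ m := by rw [one_div, inv_pow, one_div]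
    rw [h6, ht]
    have h7 : 12 * (1 / (2 : ℝ) ^ m + 6 * (σ * (1 / 2 ^ m))) ≤ 84 * σ / 2 ^ m := by
      rw [le_div_iff₀ (by positivity)]
      have : 12 * (1 / (2 : ℝ) ^ m + 6 * (σ * (1 / 2 ^ m))) * 2 ^ m = 12 + 72 * σ := by
        field_simp
        ring
      rw [this]
      linarith
    refine h7.trans ?_
    rw [div_le_div_iff₀ (by positivity) (by positivity)]
    nlinarith
  have h8 : (0 : ℝ) < 2 ^ n := by positivity
  have h9 := mul_le_mul_of_nonneg_right h3 (show (0 : ℝ) ≤ 2 ^ n * t / 4 by positivity)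
  nlinarith

open Classical in
/-- **One side table.** -/
theorem one_table (hc : Cp g S (bt α) Φ) {μ : ℕ → ℕ} (C T A : Oracle) (M : Alg)
    (p : Polynomial ℕ) {n : ℕ} (hn : 1 ≤ n) (hl : (lb M).eval (il n (p.eval n)) ≤ lam α n)
    (hE : 1008 * (rq M p n + 1) ^ 2 * 4 ^ kk μ n ≤ 2 ^ μ n) :
    Ex (ber (1 / 2)) (fun ω : Ib μ n → Bool =>
      if ovw (posB μ n) ω A ∈ Many Φ μ C T M p n then (1 : ℝ) else 0) ≤
      Real.exp (-(2 ^ n / (576 * ((rq M p n : ℝ) + 1) ^ 2 * 16 ^ kk μ n))) := by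
  set k := kk μ n with hk
  set s := rq M p n with hs
  set ℓ := p.eval n with hℓ
  have hm : 1 ≤ μ n := by
    by_contra hcon
    have h0 : μ n = 0 := by omega
    rw [h0, pow_zero] at hE
    have : 1 ≤ 4 ^ k := Nat.one_le_pow _ _ (by norm_num)
    have : 1 ≤ (s + 1) ^ 2 := Nat.one_le_pow _ _ (by omega)
    nlinarith
  have hlen : ∀ x : Fin (2 ^ n), (bitsOf n x.val).length = n := fun x => length_bitsOf _ _
  -- the game
  set acc : Fin (2 ^ n) → (Ib μ n → Bool) → (List (List Bool) → List Bool) → (Fin ℓ → Bool) →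
      Prop := fun x ω P r =>
      Accepts (val M (OT Φ μ C T (ovw (posB μ n) ω A))) P ℓ (bitsOf n x.val) (List.ofFn r) with hacc
  set Q : Fin (2 ^ n) → (Ib μ n → Bool) → (List (List Bool) → List Bool) → (Fin ℓ → Bool) →
      Finset (Ib μ n) := fun x ω P r => univ.filter fun i =>
      false :: false :: false :: posB μ n i ∈
        tq M (OT Φ μ C T (ovw (posB μ n) ω A)) P ℓ (bitsOf n x.val) (List.ofFn r) (ℓ + 1) with hQ
  have hQc : ∀ x ω P r, (Q x ω P r).card ≤ s + 1 := by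
    intro x ω P r
    have h1 := tq_card M (OT Φ μ C T (ovw (posB μ n) ω A)) P (ℓ := ℓ) (hlen x)
      (w := List.ofFn r) (List.length_ofFn) (ℓ + 1) le_rfl
    refine le_trans ?_ (h1.trans (Nat.le_succ _))
    refine Finset.card_le_card_of_injOn (fun i => false :: false :: false :: posB μ n i)
      (fun i hi => ?_) fun i _ j _ h => ?_
    · simp only [hQ] at hi
      rw [Finset.mem_coe, Finset.mem_filter] at hi
      exact hi.2
    · exact posB_inj μ n (by simpa using h)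
  have hQs : ∀ x ω ω' P r, (∀ i ∈ Q x ω P r, ω' i = ω i) →
      (Q x ω' P r = Q x ω P r ∧ (acc x ω' P r ↔ acc x ω P r)) := by
    intro x ω ω' P r h
    have h1 : ∀ q ∈ tq M (OT Φ μ C T (ovw (posB μ n) ω A)) P ℓ (bitsOf n x.val) (List.ofFn r)
        (ℓ + 1), OT Φ μ C T (ovw (posB μ n) ω' A) q = OT Φ μ C T (ovw (posB μ n) ω A) q := by
      intro q hq
      refine agree hc C T A hn ω ω' ?_ fun i hi => h i ?_
      · exact (tq_length M _ P (hlen x) (w := List.ofFn r) (List.length_ofFn) (ℓ + 1) le_rfl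
          q hq).trans hl
      · simp only [hQ]
        rw [Finset.mem_filter]
        refine ⟨Finset.mem_univ _, ?_⟩
        rw [← hi]
        exact hq
    refine ⟨?_, tq_acc M P ℓ _ _ h1⟩
    simp only [hQ]
    rw [(tq_stab M P ℓ _ _ (ℓ + 1) h1).1]
  have hcard : (Fintype.card (Fin (2 ^ n)) : ℝ) = 2 ^ n := by
    rw [Fintype.card_fin]
    push_cast
    rfl
  have hσ : ((s + 1 : ℕ) : ℝ) = (s : ℝ) + 1 := by push_cast; rfl
  have hρ0 : 1 ≤ 12 * (s + 1) * 2 ^ k := by
    have : 1 ≤ 2 ^ k := Nat.one_le_two_pow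
    nlinarith
  have hρ : (((12 * (s + 1) * 2 ^ k - 1 : ℕ) : ℝ)) + 1 = 12 * ((s : ℝ) + 1) * 2 ^ k := by
    rw [Nat.cast_sub hρ0]
    push_cast
    ring
  have hs0 : (0 : ℝ) ≤ s := Nat.cast_nonneg s
  have hb := conc_bits (X := Fin (2 ^ n)) (K := KK (μ n)) (m := μ n) hm acc Q hQc hQs
    (KK_spec _) (12 * (s + 1) * 2 ^ k - 1) (t := 1 / (12 * ((s : ℝ) + 1) * 4 ^ k))
    (D := 2 ^ n / 2 ^ k) (by positivity) (by
      rw [div_le_one (by positivity)]
      have : (1 : ℝ) ≤ 4 ^ k := one_le_pow₀ (by norm_num)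
      nlinarith) (by
      rw [hρ, hcard, hσ]
      apply le_of_eq
      field_simp)
  rw [hρ, hcard, Fintype.card_fin] at hb
  refine le_trans (le_of_eq ?_) (hb.trans (exps hE))
  refine congrArg (Ex (ber (1 / 2))) (funext fun ω => ?_)
  have hpr : ∀ (x : Fin (2 ^ n)) (P : List (List Bool) → List Bool),
      (pr ℓ fun r => Accepts (val M (OT Φ μ C T (ovw (posB μ n) ω A))) P ℓ (bitsOf n x.val) r) =
      Pool.Agent.J6H31.AW.cnt (acc x ω P) / Fintype.card (Fin ℓ → Bool) := by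
    intro x P
    rw [Pool.Agent.J6H31.AW.cnt_eq, Fintype.card_fun, Fintype.card_bool, Fintype.card_fin]
    unfold pr
    push_cast
    rfl
  have hcor : ∀ x : Fin (2 ^ n), CorrectAt (val M (OT Φ μ C T (ovw (posB μ n) ω A))) p
      (hardB μ (ovw (posB μ n) ω A))ᶜ (bitsOf n x.val) ↔ Cor acc ω x := by
    intro x
    unfold CorrectAt Cor
    rw [hlen x]
    simp only [← hℓ, hpr, Set.mem_compl_iff, hardB_ovw, not_not]
  have h10 : (ovw (posB μ n) ω A ∈ Many Φ μ C T M p n) ↔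
      (2 : ℝ) ^ n / 2 + 2 ^ n / 2 ^ k < (univ.filter fun x => Cor acc ω x).card := by
    unfold Many num
    rw [Set.mem_ofPred_eq, ncard_len]
    have e2 : (univ.filter fun x : Fin (2 ^ n) =>
        CorrectAt (val M (OT Φ μ C T (ovw (posB μ n) ω A))) p
          (hardB μ (ovw (posB μ n) ω A))ᶜ (bitsOf n x.val)) =
        univ.filter fun x => Cor acc ω x :=
      Finset.filter_congr fun x _ => hcor x
    rw [e2]
  exact if_congr h10 rfl rfl

end Pool.Agent.J6H31.AX
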